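import Pool.Agent.Q41.GT.Top

/-!
MP_8d6173_ag, Q1: the moduli spaces `M_d(n)` of the rational maps of degree `d` with a marked point
of formal period `n` are of general type for `n ≥ N(d)`, and so are all their subvarieties of positive
dimension (which contain a pair of exact period `n`).

All definitions are in `Pool/Agent/Q41/GT/Mod.lean`; `GeneralType` is in
`Pool/Agent/W602/GT/Defs.lean`; `ratP1 p q d : Option ℂ → Option ℂ` is the self-map `p / q` of the
projective line `Option ℂ = ℂ ∪ {none}`, `none = ∞` (`Pool/Agent/W277/UH/F1.lean`).

The space `V d n ℂ` is the set of the `x` in `ℂ ^ (2 d - 1)` such that `num d x`, of degree less than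
`d`, with the coefficients `x (inl i)`, and `den d x = X ^ d + … + x (inr 0) X + num d x (0)` are
coprime, and `∞` has the exact period `n` for the map `f = num d x / den d x` of degree `d`. So
`f(∞) = 0` and `f(0) = 1`. It is an affine algebraic variety: the part (where the resultant
and the conditions `f ^ m (∞) ≠ ∞`, `0 < m < n`, do not vanish) of the hypersurface `f ^ n (∞) = ∞`.

Theorem. For every `d ≥ 2` there is `N` such that for all `n ≥ N`:

(1) `V d n ℂ` is not empty.

(2) Normal form: every pair `(f, z)` of a map of degree `d` and a point of exact period `n` is
conjugate to `(num d x / den d x, ∞)` for exactly one `x` in `V d n ℂ`. So `V d n ℂ` parametrises the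
conjugacy classes of the pairs with exact period `n`, a Zariski dense part of `M_d(n)` (the complement of a closed set).

(3) Density: every pair `(p / q, v)` such that `v` has the formal period `n` (a zero of the dynatomic
form `∏_{k ∣ n} (Y F₀^k - X F₁^k) ^ μ(n / k)`) is a limit of pairs such that `v'` has the exact period
`n`. So the pairs of exact period are dense: the irreducible components of `M_d(n)` are the
closures of (the images of) those of `V d n ℂ`, with the same function fields.

(4) The irreducible components of `V d n ℂ` (given by the minimal primes `P` of its vanishing ideal;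
the function field is the field of fractions of the coordinate ring modulo `P`) have dimension
`2 d - 2` and are of general type.

(5) All irreducible subsets `W` of `V d n ℂ` (that is, with prime vanishing ideal `P`) of positive
dimension (infinite) are of general type: the function field of the closure of `W` is of general
type.

`GeneralType ℂ K w`: the transcendence degree of `K` is `w` and for some `m > 0` there are `w + 1`
rational `m`-canonical forms, regular at all prime divisors of all models of `K`, whose ratios are of
transcendence degree `w`; so the Kodaira dimension of the smooth projective models is `w`.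

The proof. For a field `K` over `ℂ`, a map `f` of degree `d` over `K` with a set `P` of `N` preperiodic
points in `P^1(K)`, a discrete valuation `v` and a derivation `D` the Wronskian type determinants
`det (x_l ^ i (D x_l) ^ j)`, for rows `x_l` in `P`, suitably normalised by differences of the points and
the resultant, are symmetric differential forms, which are regular at every `v`, and vanish at `v` to an
order which dominates the orders of the poles at `v` of all the cross ratios of the points of `P`.
They have no common zero off the zero section unless the map is conjugate to a map over a smaller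
field. So the cotangent bundle is ample off the degenerate locus, and the symmetric forms give
pluricanonical forms.
-/

set_option autoImplicit false

namespace Pool.Agent.Results.MP_8d6173_ag.GeneralTypeLargePeriod

open Polynomial
open Pool.Agent.Q41.GT
open Pool.Agent.W277.UH (ratP1)
open Pool.Agent.W602.GT (GeneralType)

/-- See the explanation at the beginning of the file. -/
theorem result (d : ℕ) (hd : 2 ≤ d) : ∃ N : ℕ, ∀ n, N ≤ n →
    (V d n ℂ).Nonempty ∧
    (∀ (p q : ℂ[X]) (z : Option ℂ), IsCoprime p q → max p.natDegree q.natDegree = d →
      Function.minimalPeriod (ratP1 p q d) z = n →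
      ∃! x : Sg d → ℂ, x ∈ V d n ℂ ∧ Conj d p q z (num d x) (den d x) none) ∧
    (∀ (p q : ℂ[X]) (v : Fin 2 → ℂ), IsCoprime p q → max p.natDegree q.natDegree = d → v ≠ 0 →
      Formal p q d n v → ∀ ε : ℝ, 0 < ε →
      ∃ (p' q' : ℂ[X]) (v' : Fin 2 → ℂ), IsCoprime p' q' ∧ max p'.natDegree q'.natDegree = d ∧
        v' ≠ 0 ∧ Function.minimalPeriod (ratP1 p' q' d) (pt v') = n ∧
        (∀ i, ‖p'.coeff i - p.coeff i‖ < ε ∧ ‖q'.coeff i - q.coeff i‖ < ε) ∧
        ∀ i, ‖v' i - v i‖ < ε) ∧
    (∀ (P : Ideal (MvPolynomial (Sg d) ℂ)) [P.IsPrime],
      P ∈ (MvPolynomial.vanishingIdeal ℂ (V d n ℂ)).minimalPrimes →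
      GeneralType ℂ (FractionRing (MvPolynomial (Sg d) ℂ ⧸ P)) (2 * d - 2)) ∧
    ∀ (P : Ideal (MvPolynomial (Sg d) ℂ)) [P.IsPrime] (W : Set (Sg d → ℂ)), W ⊆ V d n ℂ →
      W.Infinite → P = MvPolynomial.vanishingIdeal ℂ W →
      ∃ w, 1 ≤ w ∧ GeneralType ℂ (FractionRing (MvPolynomial (Sg d) ℂ ⧸ P)) w :=
  top_gt d hd

end Pool.Agent.Results.MP_8d6173_ag.GeneralTypeLargePeriod
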